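import Pool.Agent.H789.OC.Base

/-!
# The oriented cycle double cover conjecture for graphs with few disjoint odd cuts

Let `G` be a finite simple graph without cut edges which does not contain seventeen pairwise disjoint
vertex sets whose numbers of boundary edges are 3, 5, 7 or 9.  Then the associated digraph of `G`
decomposes into directed cycles of length at least three, in five families none of which uses an edge
twice.

Proof.  By the files `X42` of the library every bridgeless graph of this kind has a nowhere-zero
4-flow or a quotient which is a Petersen graph; the condition passes to the graphs obtained by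
identification of vertices.  Orientable double covers with five classes are flows whose values are
differences of two of five unit vectors.  Nowhere-zero 4-flows give such flows, and the flows of the
ten smaller graphs at a Petersen quotient are glued along a flow of the Petersen graph (library
`R890/FF`).
-/

set_option autoImplicit false

namespace Pool.Agent.Results.MP_781dd6_co.FewSmallCuts

open Finset Pool.Agent.H160R2.HF Pool.Agent.H23.PS

/-- The number of the edges of the multigraph `K` with exactly one end in `X`. -/
noncomputable def boundary {V E : Type} (K : OrGraph V E) (X : Set V) : ℕ :=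
  {e | ¬ (K.t e ∈ X ↔ K.h e ∈ X)}.ncard

/-- The number of the edges of the simple graph `G` with exactly one end in `X`. -/
noncomputable def cutSize {V : Type} (G : SimpleGraph V) (X : Set V) : ℕ :=
  {p : V × V | p.1 ∈ X ∧ p.2 ∉ X ∧ G.Adj p.1 p.2}.ncard

/-- One of the following three conditions on the vertex sets and their numbers `b X` of boundary
edges holds.  (1) For all pairwise disjoint vertex sets `X 0, ..., X (m - 1)`, where `18 ≤ m`, with
odd numbers of boundary edges, the sum of these numbers is larger than `4 m - 6`.  (2) There are no
seventeen pairwise disjoint vertex sets whose numbers of boundary edges are odd and at most nine.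
(3) For some `d ≥ 10` every vertex has at least `d` different neighbours, and the number of the
vertices is less than `17 (d + 1)`. -/
def FewSmall {V : Type} (b : Set V → ℕ) (N : V → Set V) : Prop :=
  (∀ (m : ℕ) (X : Fin m → Set V), 18 ≤ m → (∀ i j, i ≠ j → Disjoint (X i) (X j)) →
    (∀ i, Odd (b (X i))) → 4 * m < ∑ i, b (X i) + 6) ∨
  (¬ ∃ X : Fin 17 → Set V, (∀ i j, i ≠ j → Disjoint (X i) (X j)) ∧
    ∀ i, Odd (b (X i)) ∧ b (X i) ≤ 9) ∨
  ∃ d, 10 ≤ d ∧ Nat.card V < 17 * (d + 1) ∧ ∀ v, d ≤ (N v).ncard

open scoped Classical in
/-- How often the closed walks of the list `C` traverse the arc from `u` to `v`. -/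
noncomputable def uses {V : Type} {G : SimpleGraph V} (C : List (Σ v : V, G.Walk v v)) (u v : V) : ℕ :=
  (C.map (fun c => (c.2.darts.filter (fun d => decide (d.toProd = (u, v)))).length)).sum

/-- The associated digraph of `G` decomposes into directed cycles of length at least three, in five
families none of which uses an edge more than once. -/
def FiveFamilies {V : Type} (G : SimpleGraph V) : Prop :=
  ∃ C : Fin 5 → List (Σ v : V, G.Walk v v), (∀ i, ∀ c ∈ C i, c.2.IsCycle) ∧
    (∀ i u v, uses (C i) u v + uses (C i) v u ≤ 1) ∧
    ∀ u v, G.Adj u v → ∑ i, uses (C i) u v = 1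

/-- (1) Let `G` be a finite simple graph without cut edges which satisfies one of the three
conditions of `FewSmall`, for example without seventeen pairwise disjoint vertex sets with 3, 5, 7 or
9 boundary edges. Then the associated digraph of `G` decomposes into directed cycles of length at
least three, in five families none of which uses an edge more than once.
(2) Every bridgeless multigraph which satisfies one of these conditions has an orientable cycle
double cover with five classes. -/
theorem result :
    (∀ (V : Type) [Fintype V] (G : SimpleGraph V),
      (∀ u v : V, G.Adj u v → (G.deleteEdges {s(u, v)}).Reachable u v) →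
      FewSmall (cutSize G) (fun v => {w | G.Adj v w}) → FiveFamilies G) ∧
    (∀ (V E : Type) [Fintype V] [DecidableEq V] [Fintype E] [DecidableEq E] (K : OrGraph V E),
      K.Bridgeless → FewSmall (boundary K)
        (fun v => {w | w ≠ v ∧ ∃ e, (K.t e = v ∧ K.h e = w) ∨ (K.t e = w ∧ K.h e = v)}) →
      FiveClasses K) := by
  have multi : ∀ (V E : Type) [Fintype V] [DecidableEq V] [Fintype E] [DecidableEq E]
      (K : OrGraph V E), K.Bridgeless → FewSmall (boundary K)
        (fun v => {w | w ≠ v ∧ ∃ e, (K.t e = v ∧ K.h e = w) ∨ (K.t e = w ∧ K.h e = v)}) →
      FiveClasses K := by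
    intro V E _ _ _ _ K hb hs
    have hs' : X42.FewCuts.FewSmallCuts K.t K.h := hs
    have hbad := X42.FewCuts.not_bad (R890.FF.n1_of_bridgeless K hb) hs'
    exact H789.OC.five_of K hb fun π h1 => X42.FlowH.mainB _ _ univ h1 fun h2 =>
      hbad (X42.FlowH.quot_bad (f := π) (Subset.refl _) (fun e he he' => absurd he he') h2)
  refine ⟨?_, multi⟩
  intro V _ G hb hs
  classical
  have hF : FiveClasses (R890.FF.orient G) := by
    refine multi V _ _ (R890.FF.orient_bridgeless G hb) ?_
    have hbd : boundary (R890.FF.orient G) = cutSize G :=
      funext fun X => H789.OC.boundary_orient G X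
    rw [hbd]
    rcases hs with h | h | ⟨d, h1, h2, h3⟩
    · exact Or.inl h
    · exact Or.inr (Or.inl h)
    · refine Or.inr (Or.inr ⟨d, h1, h2, fun v => ?_⟩)
      refine (h3 v).trans (le_of_eq ?_)
      congr 1
      ext w
      constructor
      · intro hw
        exact ⟨(SimpleGraph.Adj.ne hw).symm, (H789.OC.joined_orient G v w).2 hw⟩
      · rintro ⟨_, hw⟩
        exact (H789.OC.joined_orient G v w).1 hw
  obtain ⟨C, h1, h2, h3⟩ := cycles_of_classes G (R890.FF.orient G) (R890.FF.orient_is G) hF
  exact ⟨C, h1, h2, h3⟩

end Pool.Agent.Results.MP_781dd6_co.FewSmallCuts
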