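import Pool.Agent.H789.OC.Base
import Pool.Agent.R129.Hfp.Seven

/-!
# The oriented cycle double cover conjecture for graphs with independence number at most six

Let `G` be a finite simple graph without cut edges in which any seven vertices include two which are
adjacent or have two common neighbours (for example, a graph with independence number at most six).
Then the associated digraph of `G` decomposes into directed cycles of length at least three, in five
families none of which uses an edge twice.

Proof.  By the files `R545/IN` of the library every bridgeless graph obtained from such a graph by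
identification of vertices has a nowhere-zero 4-flow or a quotient which is a Petersen graph.
Orientable double covers with five classes are flows whose values are differences of two of five unit
vectors.  Nowhere-zero 4-flows give such flows, and the flows of the ten smaller graphs at a Petersen
quotient are glued along a flow of the Petersen graph (library `R890/FF`).
-/

set_option autoImplicit false

namespace Pool.Agent.Results.MP_781dd6_co.IndependenceNumberSix

open Finset Pool.Agent.H160R2.HF Pool.Agent.H23.PS

/-- The edge `e` joins the vertices `x` and `y`. -/
def Joins {V E : Type} (K : OrGraph V E) (e : E) (x y : V) : Prop :=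
  (K.t e = x ∧ K.h e = y) ∨ (K.t e = y ∧ K.h e = x)

/-- The vertices `x` and `y` are joined by an edge, or by two different paths with two edges. -/
def Close {V E : Type} (K : OrGraph V E) (x y : V) : Prop :=
  (∃ e, Joins K e x y) ∨
    ∃ (e f e' f' : E) (a b : V), (e ≠ e' ∨ f ≠ f') ∧ Joins K e x a ∧ Joins K f a y ∧
      Joins K e' x b ∧ Joins K f' b y

open scoped Classical in
/-- How often the closed walks of the list `C` traverse the arc from `u` to `v`. -/
noncomputable def uses {V : Type} {G : SimpleGraph V} (C : List (Σ v : V, G.Walk v v)) (u v : V) : ℕ :=
  (C.map (fun c => (c.2.darts.filter (fun d => decide (d.toProd = (u, v)))).length)).sum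

/-- The associated digraph of `G` decomposes into directed cycles of length at least three, in five
families none of which uses an edge more than once. -/
def FiveFamilies {V : Type} (G : SimpleGraph V) : Prop :=
  ∃ C : Fin 5 → List (Σ v : V, G.Walk v v), (∀ i, ∀ c ∈ C i, c.2.IsCycle) ∧
    (∀ i u v, uses (C i) u v + uses (C i) v u ≤ 1) ∧
    ∀ u v, G.Adj u v → ∑ i, uses (C i) u v = 1

/-- (1) Let `G` be a finite simple graph without cut edges such that any seven different vertices
include two which are adjacent or have two common neighbours. Then the associated digraph of `G`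
decomposes into directed cycles of length at least three, in five families none of which uses an
edge more than once.
(2) Every bridgeless multigraph in which any seven different vertices include two which are joined
by an edge or by two different paths with two edges has an orientable cycle double cover with five
classes. -/
theorem result :
    (∀ (V : Type) [Fintype V] (G : SimpleGraph V),
      (∀ u v : V, G.Adj u v → (G.deleteEdges {s(u, v)}).Reachable u v) →
      (∀ x : Fin 7 → V, Function.Injective x → ∃ i j, i ≠ j ∧ (G.Adj (x i) (x j) ∨
        ∃ a b, a ≠ b ∧ G.Adj (x i) a ∧ G.Adj a (x j) ∧ G.Adj (x i) b ∧ G.Adj b (x j))) →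
      FiveFamilies G) ∧
    (∀ (V E : Type) [Fintype V] [DecidableEq V] [Fintype E] [DecidableEq E] (K : OrGraph V E),
      K.Bridgeless →
      (∀ x : Fin 7 → V, Function.Injective x → ∃ i j, i ≠ j ∧ Close K (x i) (x j)) →
      FiveClasses K) := by
  have multi : ∀ (V E : Type) [Fintype V] [DecidableEq V] [Fintype E] [DecidableEq E]
      (K : OrGraph V E), K.Bridgeless →
      (∀ x : Fin 7 → V, Function.Injective x → ∃ i j, i ≠ j ∧ Close K (x i) (x j)) →
      FiveClasses K := by
    intro V E _ _ _ _ K hb h7
    have h7' : ∀ x : Fin 7 → V, Function.Injective x →
      ∃ i j, i ≠ j ∧ Pool.Agent.R545.IN.Close K.t K.h (x i) (x j) := h7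
    exact H789.OC.five_of K hb fun π h1 => R129.Hfp.seven' K.t K.h π h1 h7'
  refine ⟨?_, multi⟩
  intro V _ G hb h7
  classical
  have hF : FiveClasses (R890.FF.orient G) := by
    refine multi V _ _ (R890.FF.orient_bridgeless G hb) fun x hx => ?_
    obtain ⟨i, j, hij, h⟩ := h7 x hx
    refine ⟨i, j, hij, ?_⟩
    rcases h with h | ⟨a, b, hab, h1, h2, h3, h4⟩
    · exact Or.inl ((H789.OC.joined_orient G _ _).2 h)
    · obtain ⟨e, he⟩ := (H789.OC.joined_orient G _ _).2 h1
      obtain ⟨f, hf⟩ := (H789.OC.joined_orient G _ _).2 h2
      obtain ⟨e', he'⟩ := (H789.OC.joined_orient G _ _).2 h3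
      obtain ⟨f', hf'⟩ := (H789.OC.joined_orient G _ _).2 h4
      refine Or.inr ⟨e, f, e', f', a, b, Or.inl ?_, he, hf, he', hf'⟩
      rintro rfl
      have h5 := h1.ne
      have h6 := h3.ne
      rcases he with ⟨p, q⟩ | ⟨p, q⟩ <;> rcases he' with ⟨p', q'⟩ | ⟨p', q'⟩
      · exact hab (q.symm.trans q')
      · exact h6 (q'.symm.trans q |>.trans (by rw [← p', p]; exact absurd (p.symm.trans p') h6))
      · exact h6 (p'.symm.trans p |>.trans (by rw [← q', q]; exact absurd (q.symm.trans q') h6))
      · exact hab (p.symm.trans p')
  obtain ⟨C, h1, h2, h3⟩ := cycles_of_classes G (R890.FF.orient G) (R890.FF.orient_is G) hF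
  exact ⟨C, h1, h2, h3⟩

end Pool.Agent.Results.MP_781dd6_co.IndependenceNumberSix
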