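import Pool.Agent.H789.OC.Base

/-!
# The oriented cycle double cover conjecture for graphs with few independent odd cuts

Let `G` be a finite simple graph without cut edges, `U` a set of vertices, and `a ≥ 3`, `c ≥ 1` with
`4 a + |U| + ⌊6 / c⌋ ≤ 21`, such that `G` has no `a + 1` pairwise disjoint and pairwise non-adjacent
vertex sets disjoint from `U`, each with an odd number, at most `2 c + 1`, of boundary edges.  Then
the associated digraph of `G` decomposes into directed cycles of length at least three, in five
families none of which uses an edge twice.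

Proof.  By the files `X186` of the library every bridgeless graph of this kind has a nowhere-zero
4-flow or a quotient which is a Petersen graph; the condition passes to the graphs obtained by
identification of vertices.  Orientable double covers with five classes are flows whose values are
differences of two of five unit vectors.  Nowhere-zero 4-flows give such flows, and the flows of the
ten smaller graphs at a Petersen quotient are glued along a flow of the Petersen graph (library
`R890/FF`).
-/

set_option autoImplicit false

namespace Pool.Agent.Results.MP_781dd6_co.IndependentSmallCuts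

open Finset Pool.Agent.H160R2.HF Pool.Agent.H23.PS

/-- The number of the edges of the multigraph `K` with exactly one end in `X`. -/
noncomputable def boundary {V E : Type} (K : OrGraph V E) (X : Set V) : ℕ :=
  {e | ¬ (K.t e ∈ X ↔ K.h e ∈ X)}.ncard

/-- The number of the edges of the simple graph `G` with exactly one end in `X`. -/
noncomputable def cutSize {V : Type} (G : SimpleGraph V) (X : Set V) : ℕ :=
  {p : V × V | p.1 ∈ X ∧ p.2 ∉ X ∧ G.Adj p.1 p.2}.ncard

/-- There are a set `U` of vertices and numbers `a ≥ 3` and `c ≥ 1` with
`4 a + |U| + ⌊6 / c⌋ ≤ 21` such that there are no `a + 1` pairwise disjoint vertex sets, no two of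
them adjacent, all of them disjoint from `U`, each with an odd number, at most `2 c + 1`, of boundary
edges.  Here `b X` is the number of the boundary edges of `X`, and `adj X Y` says that some edge
joins `X` and `Y`. -/
def Independent {V : Type} (b : Set V → ℕ) (adj : Set V → Set V → Prop) : Prop :=
  ∃ (U : Set V) (a c : ℕ), 3 ≤ a ∧ 1 ≤ c ∧ 4 * a + U.ncard + 6 / c ≤ 21 ∧
    ¬ ∃ X : Fin (a + 1) → Set V,
      (∀ i j, i ≠ j → Disjoint (X i) (X j) ∧ ¬ adj (X i) (X j)) ∧
      (∀ i, Disjoint (X i) U) ∧
      ∀ i, Odd (b (X i)) ∧ b (X i) ≤ 2 * c + 1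

open scoped Classical in
/-- How often the closed walks of the list `C` traverse the arc from `u` to `v`. -/
noncomputable def uses {V : Type} {G : SimpleGraph V} (C : List (Σ v : V, G.Walk v v)) (u v : V) : ℕ :=
  (C.map (fun c => (c.2.darts.filter (fun d => decide (d.toProd = (u, v)))).length)).sum

/-- The associated digraph of `G` decomposes into directed cycles of length at least three, in five
families none of which uses an edge more than once. -/
def FiveFamilies {V : Type} (G : SimpleGraph V) : Prop :=
  ∃ C : Fin 5 → List (Σ v : V, G.Walk v v), (∀ i, ∀ c ∈ C i, c.2.IsCycle) ∧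
    (∀ i u v, uses (C i) u v + uses (C i) v u ≤ 1) ∧
    ∀ u v, G.Adj u v → ∑ i, uses (C i) u v = 1

/-- (1) Let `G` be a finite simple graph without cut edges which satisfies the condition
`Independent`. Then the associated digraph of `G` decomposes into directed cycles of length at least
three, in five families none of which uses an edge more than once.
(2) Every bridgeless multigraph which satisfies this condition has an orientable cycle double cover
with five classes. -/
theorem result :
    (∀ (V : Type) [Fintype V] (G : SimpleGraph V),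
      (∀ u v : V, G.Adj u v → (G.deleteEdges {s(u, v)}).Reachable u v) →
      Independent (cutSize G) (fun X Y => ∃ u ∈ X, ∃ v ∈ Y, G.Adj u v) → FiveFamilies G) ∧
    (∀ (V E : Type) [Fintype V] [DecidableEq V] [Fintype E] [DecidableEq E] (K : OrGraph V E),
      K.Bridgeless → Independent (boundary K)
        (fun X Y => ∃ e, (K.t e ∈ X ∧ K.h e ∈ Y) ∨ (K.t e ∈ Y ∧ K.h e ∈ X)) →
      FiveClasses K) := by
  have multi : ∀ (V E : Type) [Fintype V] [DecidableEq V] [Fintype E] [DecidableEq E]
      (K : OrGraph V E), K.Bridgeless → Independent (boundary K)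
        (fun X Y => ∃ e, (K.t e ∈ X ∧ K.h e ∈ Y) ∨ (K.t e ∈ Y ∧ K.h e ∈ X)) →
      FiveClasses K := by
    intro V E _ _ _ _ K hb hs
    have hs' : X186.IC.IndependentSmallCuts K.t K.h := hs
    obtain ⟨U, a, c, ha, hc, hU, h2⟩ := X186.IC.of_indep hs'
    refine H789.OC.five_of K hb fun π h1 => ?_
    refine X186.IC.mainI _ _ univ h1 (U.image π) a c ha hc ?_ fun h3 => h2 ?_
    · have := card_image_le (s := U) (f := π)
      omega
    · exact X186.IC.quot_fam (f := π) (Subset.refl _) (fun e he he' => absurd he he') h3
  refine ⟨?_, multi⟩
  intro V _ G hb hs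
  classical
  have hF : FiveClasses (R890.FF.orient G) := by
    refine multi V _ _ (R890.FF.orient_bridgeless G hb) ?_
    have hbd : boundary (R890.FF.orient G) = cutSize G :=
      funext fun X => H789.OC.boundary_orient G X
    have hadj : (fun X Y : Set V => ∃ e, ((R890.FF.orient G).t e ∈ X ∧
        (R890.FF.orient G).h e ∈ Y) ∨
        ((R890.FF.orient G).t e ∈ Y ∧ (R890.FF.orient G).h e ∈ X)) =
        (fun X Y : Set V => ∃ u ∈ X, ∃ v ∈ Y, G.Adj u v) := by
      funext X Y
      apply propext
      constructor
      · rintro ⟨e, ⟨h1, h2⟩ | ⟨h1, h2⟩⟩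
        · exact ⟨_, h1, _, h2, (R890.FF.orient_is G).1 e⟩
        · exact ⟨_, h2, _, h1, ((R890.FF.orient_is G).1 e).symm⟩
      · rintro ⟨u, hu, v, hv, huv⟩
        obtain ⟨e, ⟨a, b⟩ | ⟨a, b⟩⟩ := (H789.OC.joined_orient G u v).2 huv
        · exact ⟨e, Or.inl ⟨a ▸ hu, b ▸ hv⟩⟩
        · exact ⟨e, Or.inr ⟨a ▸ hv, b ▸ hu⟩⟩
    rw [hbd, hadj]
    exact hs
  obtain ⟨C, h1, h2, h3⟩ := cycles_of_classes G (R890.FF.orient G) (R890.FF.orient_is G) hF
  exact ⟨C, h1, h2, h3⟩

end Pool.Agent.Results.MP_781dd6_co.IndependentSmallCuts
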