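import Pool.Agent.H789.OC.Base
import Pool.Agent.R769.MN.Mat

/-!
# The oriented cycle double cover conjecture for graphs with matching number at most eight

Let `G` be a finite simple graph without cut edges in which every matching has at most eight edges.
Then the associated digraph of `G` decomposes into directed cycles of length at least three, in five
families none of which uses an edge twice.

Proof.  By the files `R769/MN` of the library every bridgeless graph with matching number at most
eight (loops not counted) has a nowhere-zero 4-flow or a quotient which is a Petersen graph; the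
matching number does not increase if vertices are identified.  Orientable double covers with five
classes are flows whose values are differences of two of five unit vectors.  Nowhere-zero 4-flows give
such flows, and the flows of the ten smaller graphs at a Petersen quotient are glued along a flow of
the Petersen graph (library `R890/FF`).
-/

set_option autoImplicit false

namespace Pool.Agent.Results.MP_781dd6_co.MatchingNumberEight

open Finset Pool.Agent.H160R2.HF Pool.Agent.H23.PS

open scoped Classical in
/-- How often the closed walks of the list `C` traverse the arc from `u` to `v`. -/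
noncomputable def uses {V : Type} {G : SimpleGraph V} (C : List (Σ v : V, G.Walk v v)) (u v : V) : ℕ :=
  (C.map (fun c => (c.2.darts.filter (fun d => decide (d.toProd = (u, v)))).length)).sum

/-- The associated digraph of `G` decomposes into directed cycles of length at least three, in five
families none of which uses an edge more than once. -/
def FiveFamilies {V : Type} (G : SimpleGraph V) : Prop :=
  ∃ C : Fin 5 → List (Σ v : V, G.Walk v v), (∀ i, ∀ c ∈ C i, c.2.IsCycle) ∧
    (∀ i u v, uses (C i) u v + uses (C i) v u ≤ 1) ∧
    ∀ u v, G.Adj u v → ∑ i, uses (C i) u v = 1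

/-- (1) Let `G` be a finite simple graph without cut edges in which every matching has at most eight
edges. Then the associated digraph of `G` decomposes into directed cycles of length at least three,
in five families none of which uses an edge more than once.
(2) Every bridgeless multigraph in which every set of pairwise disjoint edges (without loops) has at
most eight members has an orientable cycle double cover with five classes. -/
theorem result :
    (∀ (V : Type) [Fintype V] (G : SimpleGraph V),
      (∀ u v : V, G.Adj u v → (G.deleteEdges {s(u, v)}).Reachable u v) →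
      (∀ M : G.Subgraph, M.IsMatching → M.edgeSet.ncard ≤ 8) → FiveFamilies G) ∧
    (∀ (V E : Type) [Fintype V] [DecidableEq V] [Fintype E] [DecidableEq E] (K : OrGraph V E),
      K.Bridgeless →
      (∀ M : Finset E, (∀ e ∈ M, K.t e ≠ K.h e) → (∀ e ∈ M, ∀ e' ∈ M, e ≠ e' →
        K.t e ≠ K.t e' ∧ K.t e ≠ K.h e' ∧ K.h e ≠ K.t e' ∧ K.h e ≠ K.h e') → M.card ≤ 8) →
      FiveClasses K) := by
  have multi : ∀ (V E : Type) [Fintype V] [DecidableEq V] [Fintype E] [DecidableEq E]
      (K : OrGraph V E), K.Bridgeless →
      (∀ M : Finset E, (∀ e ∈ M, K.t e ≠ K.h e) → (∀ e ∈ M, ∀ e' ∈ M, e ≠ e' →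
        K.t e ≠ K.t e' ∧ K.t e ≠ K.h e' ∧ K.h e ≠ K.t e' ∧ K.h e ≠ K.h e') → M.card ≤ 8) →
      FiveClasses K := by
    intro V E _ _ _ _ K hb h8
    exact H789.OC.five_of K hb fun π h1 => R769.MN.match8 _ _ univ h1
      fun M _ hM => h8 M (hM.of_map π).1 (hM.of_map π).2
  refine ⟨?_, multi⟩
  intro V _ G hb h8
  classical
  have hF : FiveClasses (R890.FF.orient G) := by
    refine multi V _ _ (R890.FF.orient_bridgeless G hb) fun M h1 h2 => ?_
    set K := R890.FF.orient G with hK
    have hor := R890.FF.orient_is G
    rw [← hK] at hor
    let S : G.Subgraph :=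
      { verts := {v | ∃ e ∈ M, K.t e = v ∨ K.h e = v}
        Adj := fun u v => ∃ e ∈ M, (K.t e = u ∧ K.h e = v) ∨ (K.h e = u ∧ K.t e = v)
        adj_sub := by
          rintro u v ⟨e, _, ⟨a, b⟩ | ⟨a, b⟩⟩
          · rw [← a, ← b]; exact hor.1 e
          · rw [← a, ← b]; exact (hor.1 e).symm
        edge_vert := by
          rintro u v ⟨e, he, ⟨a, b⟩ | ⟨a, b⟩⟩
          · exact ⟨e, he, Or.inl a⟩
          · exact ⟨e, he, Or.inr a⟩
        symm := by
          constructor
          rintro u v ⟨e, he, ⟨a, b⟩ | ⟨a, b⟩⟩
          · exact ⟨e, he, Or.inr ⟨b, a⟩⟩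
          · exact ⟨e, he, Or.inl ⟨b, a⟩⟩ }
    have hm : S.IsMatching := by
      rintro v ⟨e, he, hv⟩
      have huniq : ∀ e' ∈ M, K.t e' = v ∨ K.h e' = v → e' = e := by
        intro e' he' hv'
        by_contra hne
        have h3 := h2 e' he' e he hne
        rcases hv with a | a <;> rcases hv' with b | b
        · exact h3.1 (b.trans a.symm)
        · exact h3.2.2.1 (b.trans a.symm)
        · exact h3.2.1 (b.trans a.symm)
        · exact h3.2.2.2 (b.trans a.symm)
      rcases hv with a | a
      · refine ⟨K.h e, ⟨e, he, Or.inl ⟨a, rfl⟩⟩, ?_⟩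
        rintro w ⟨e', he', ⟨b, c⟩ | ⟨b, c⟩⟩
        · have h4 := huniq e' he' (Or.inl b)
          rw [h4] at c
          exact c.symm
        · have h4 := huniq e' he' (Or.inr b)
          rw [h4] at b
          exact absurd (a.trans b.symm) (h1 e he)
      · refine ⟨K.t e, ⟨e, he, Or.inr ⟨a, rfl⟩⟩, ?_⟩
        rintro w ⟨e', he', ⟨b, c⟩ | ⟨b, c⟩⟩
        · have h4 := huniq e' he' (Or.inl b)
          rw [h4] at b
          exact absurd (b.trans a.symm) (h1 e he)
        · have h4 := huniq e' he' (Or.inr b)
          rw [h4] at c
          exact c.symm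
    have h3 : S.edgeSet = (fun e : G.edgeSet => e.1) '' (M : Set G.edgeSet) := by
      ext x
      induction x with
      | _ u v =>
        rw [SimpleGraph.Subgraph.mem_edgeSet]
        constructor
        · rintro ⟨e, he, hh⟩
          refine ⟨e, he, ?_⟩
          show e.1 = s(u, v)
          rw [← R890.FF.orient_eq G e, Sym2.eq_iff]
          rcases hh with ⟨a, b⟩ | ⟨a, b⟩
          · exact Or.inl ⟨a, b⟩
          · exact Or.inr ⟨b, a⟩
        · rintro ⟨e, he, hh⟩
          refine ⟨e, he, ?_⟩
          change e.1 = s(u, v) at hh
          rw [← R890.FF.orient_eq G e, Sym2.eq_iff] at hh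
          rcases hh with ⟨a, b⟩ | ⟨a, b⟩
          · exact Or.inl ⟨a, b⟩
          · exact Or.inr ⟨b, a⟩
    have h4 := h8 S hm
    rw [h3, Set.ncard_image_of_injective _ Subtype.val_injective, Set.ncard_coe_finset] at h4
    exact h4
  obtain ⟨C, h1, h2, h3⟩ := cycles_of_classes G (R890.FF.orient G) (R890.FF.orient_is G) hF
  exact ⟨C, h1, h2, h3⟩

end Pool.Agent.Results.MP_781dd6_co.MatchingNumberEight
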